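import Pool.Agent.Y880.RS.G5b

/-!
# Prime `k`-tuples whose shifts form a progression inside an arbitrary dense set of small shifts

Let `k ≥ 2`, `δ > 0` and `0 < ε ≤ 1`. There are `B` and `c > 0` such that for all large `X`, all `N` with
`(log X)^B ≤ N ≤ X^(1/4)`, EVERY set `T` of at least `δ N` shifts in `[1, N]` and EVERY set `P` of at least
`δ X / log X` primes up to `X` the following holds.

(1) For at least `c X` integers `1 ≤ b ≤ X` there are `k` shifts in `T`, in arithmetic progression with difference at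
most `N^ε (log X)^B`, such that `b + a` is a prime of `P` for each of these shifts `a`.

(2) `T` contains one (hence admissible) `k`-tuple of shifts, an arithmetic progression with such a difference, for
which `b + a` is a prime of `P` for all these `k` shifts `a`, for at least `c X / (N^(1 + ε) (log X)^B)` of the
integers `1 ≤ b ≤ X`.
-/

set_option autoImplicit false

namespace Pool.Agent.Results.MP_f686a1_nt.PolylogProgressions

open Finset Polynomial

/-- the shifts `n, n + r, ..., n + (k - 1) r` belong to `T`, and `1 ≤ r ≤ D` -/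
def Prog (T : Finset ℕ) (k : ℕ) (D : ℝ) (n r : ℕ) : Prop :=
  1 ≤ r ∧ (r : ℝ) ≤ D ∧ ∀ j < k, n + j * r ∈ T

/-- `b + a` belongs to `P` for the shifts `a = n, n + r, ..., n + (k - 1) r` -/
def Tuple (P : Finset ℕ) (k n r b : ℕ) : Prop := ∀ j < k, b + (n + j * r) ∈ P

open Classical in
/-- **Uniform prime tuples in dense sets of shifts.** -/
theorem result (k : ℕ) (hk : 2 ≤ k) (δ ε : ℝ) (hδ : 0 < δ) (hε : 0 < ε) (hε1 : ε ≤ 1) :
    ∃ B : ℕ, ∃ c : ℝ, 0 < c ∧ ∃ X₀ : ℕ, ∀ X N : ℕ, X₀ ≤ X → Real.log X ^ B ≤ N → N ^ 4 ≤ X →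
      ∀ T ⊆ Icc 1 N, δ * N ≤ T.card →
      ∀ P ⊆ Icc 1 X, (∀ p ∈ P, p.Prime) → δ * (X / Real.log X) ≤ P.card →
        c * X ≤ ((Icc 1 X).filter (fun b => ∃ n r, Prog T k ((N : ℝ) ^ ε * Real.log X ^ B) n r ∧ Tuple P k n r b)).card ∧
        ∃ n r : ℕ, Prog T k ((N : ℝ) ^ ε * Real.log X ^ B) n r ∧
          c * X / (N * ((N : ℝ) ^ ε * Real.log X ^ B)) ≤ ((Icc 1 X).filter (fun b => Tuple P k n r b)).card := by
  have hd : (X : ℤ[X]).natDegree = 1 := natDegree_X
  obtain ⟨B, c, hc, X₀, h⟩ := Pool.Agent.Y880.RS.G5.g5 (X : ℤ[X]) (by rw [hd]; norm_num) k hk δ ε hδ hε hε1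
  refine ⟨B, c, hc, max X₀ 3, fun X N hX hN hNX T hT hTc P hP hPp hPc => ?_⟩
  have hX3 : 3 ≤ X := (le_max_right _ _).trans hX
  obtain ⟨G, hG, hGc, hGb⟩ := h X N ((le_max_left _ _).trans hX) hN (by rw [hd]; exact hNX) T hT hTc P hP hPp hPc
  obtain ⟨D, hD⟩ : ∃ D : ℝ, D = (N : ℝ) ^ ε * Real.log X ^ B := ⟨_, rfl⟩
  rw [← hD] at hGb ⊢
  have key : ∀ b ∈ G, ∃ n r, Prog T k D n r ∧ Tuple P k n r b := by
    intro b hb
    obtain ⟨n, r, h2, h3, h4⟩ := hGb b hb
    refine ⟨n, r, ⟨h2, h3, fun j hj => (h4 j hj).1⟩, fun j hj => ?_⟩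
    obtain ⟨_, p, hp, hpe⟩ := h4 j hj
    have h6 : p = b + (n + j * r) := by
      rw [eval_X] at hpe
      have : (p : ℤ) = ((b + (n + j * r) : ℕ) : ℤ) := by rw [hpe]; push_cast; ring
      exact_mod_cast this
    rwa [← h6]
  have hXr : (3 : ℝ) ≤ X := by exact_mod_cast hX3
  have hX0 : (0 : ℝ) < X := by linarith
  have hlog : 0 < Real.log X := Real.log_pos (by linarith)
  have hN0 : (0 : ℝ) < N := lt_of_lt_of_le (pow_pos hlog B) hN
  have hD0 : 0 < D := by rw [hD]; positivity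
  constructor
  · refine hGc.trans ?_
    have hsub : G ⊆ (Icc 1 X).filter (fun b => ∃ n r, Prog T k D n r ∧ Tuple P k n r b) :=
      fun b hb => mem_filter.2 ⟨hG hb, key b hb⟩
    exact_mod_cast card_le_card hsub
  · by_contra hcon
    push Not at hcon
    obtain ⟨b₀, hb₀⟩ : G.Nonempty := by
      rw [← card_pos]
      have : (0 : ℝ) < G.card := lt_of_lt_of_le (by positivity) hGc
      exact_mod_cast this
    choose! n r hnr using key
    have hmap : ∀ b ∈ G, (n b, r b) ∈ (Icc 1 N) ×ˢ (Icc 1 ⌊D⌋₊) := by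
      intro b hb
      obtain ⟨⟨h1, h2, h3⟩, _⟩ := hnr b hb
      rw [mem_product, mem_Icc, mem_Icc]
      have h4 := h3 0 (by omega)
      rw [zero_mul, add_zero] at h4
      have h5 := mem_Icc.1 (hT h4)
      exact ⟨⟨h5.1, h5.2⟩, h1, Nat.le_floor h2⟩
    have hsum := card_eq_sum_card_fiberwise (f := fun b => (n b, r b)) (s := G) (t := (Icc 1 N) ×ˢ (Icc 1 ⌊D⌋₊))
      (fun b hb => hmap b hb)
    have hfl : (⌊D⌋₊ : ℝ) ≤ D := Nat.floor_le hD0.le
    have hcard : (((Icc 1 N) ×ˢ (Icc 1 ⌊D⌋₊)).card : ℝ) ≤ N * D := by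
      rw [card_product, Nat.card_Icc, Nat.card_Icc, Nat.add_sub_cancel, Nat.add_sub_cancel]
      push_cast
      exact mul_le_mul_of_nonneg_left hfl hN0.le
    have hlt : ∀ x ∈ (Icc 1 N) ×ˢ (Icc 1 ⌊D⌋₊), ((G.filter (fun b => (n b, r b) = x)).card : ℝ) ≤ c * X / (N * D) := by
      intro x _
      by_cases hx : (G.filter (fun b => (n b, r b) = x)).Nonempty
      · obtain ⟨b, hb⟩ := hx
        rw [mem_filter] at hb
        obtain ⟨hb1, hb2⟩ := hb
        obtain ⟨h1, _⟩ := hnr b hb1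
        have h3 := hcon (n b) (r b) h1
        refine le_trans ?_ h3.le
        have hsub : G.filter (fun b => (n b, r b) = x) ⊆ (Icc 1 X).filter (fun b' => Tuple P k (n b) (r b) b') := by
          intro b' hb'
          rw [mem_filter] at hb' ⊢
          refine ⟨hG hb'.1, ?_⟩
          have h4 := (hnr b' hb'.1).2
          have h5 : (n b', r b') = (n b, r b) := hb'.2.trans hb2.symm
          rw [Prod.mk.injEq] at h5
          rwa [h5.1, h5.2] at h4
        exact_mod_cast card_le_card hsub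
      · rw [not_nonempty_iff_eq_empty] at hx
        rw [hx, card_empty]
        push_cast
        positivity
    have hx₀ := hmap b₀ hb₀
    have hstrict : ((G.filter (fun b => (n b, r b) = (n b₀, r b₀))).card : ℝ) < c * X / (N * D) := by
      obtain ⟨h1, _⟩ := hnr b₀ hb₀
      refine lt_of_le_of_lt ?_ (hcon (n b₀) (r b₀) h1)
      have hsub : G.filter (fun b => (n b, r b) = (n b₀, r b₀)) ⊆
          (Icc 1 X).filter (fun b' => Tuple P k (n b₀) (r b₀) b') := by
        intro b' hb'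
        rw [mem_filter] at hb' ⊢
        refine ⟨hG hb'.1, ?_⟩
        have h4 := (hnr b' hb'.1).2
        have h5 := hb'.2
        rw [Prod.mk.injEq] at h5
        rwa [h5.1, h5.2] at h4
      exact_mod_cast card_le_card hsub
    have h7 : (G.card : ℝ) < c * X := by
      rw [hsum]
      push_cast
      calc ∑ x ∈ (Icc 1 N) ×ˢ (Icc 1 ⌊D⌋₊), ((G.filter (fun b => (n b, r b) = x)).card : ℝ)
          < ∑ x ∈ (Icc 1 N) ×ˢ (Icc 1 ⌊D⌋₊), c * X / (N * D) := sum_lt_sum hlt ⟨_, hx₀, hstrict⟩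
        _ = (((Icc 1 N) ×ˢ (Icc 1 ⌊D⌋₊)).card : ℝ) * (c * X / (N * D)) := by rw [sum_const, nsmul_eq_mul]
        _ ≤ (N * D) * (c * X / (N * D)) := mul_le_mul_of_nonneg_right hcard (by positivity)
        _ = c * X := by field_simp
    linarith

end Pool.Agent.Results.MP_f686a1_nt.PolylogProgressions
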