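import Mathlib
import Pool.Agent.Q47.UKT

/-!
# Prime `k`-tuples with shifts up to `x`, uniformly, for a positive proportion of the `k`-tuples

For every finite set `V` of at least `n₀` shifts in `[0, x]` which misses a residue class modulo
every prime `p ≤ z` (`z`, `n₀` depend on `k` and `ε` only), at least a proportion `proportion c k - ε`
of the `k`-tuples of elements of `V` has at least `x ^ (1 - η)` positive integers `n ≤ x` with all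
`n + a i` prime.
-/

set_option autoImplicit false

namespace Pool.Agent.Results.MP_f686a1_nt.PositiveProportion

open Finset Filter

/-- `1/3` for pairs and `(1 / (4 - c)) ^ (k - 1)` for all other `k` -/
noncomputable def proportion (c : ℝ) (k : ℕ) : ℝ := if k = 2 then 1 / 3 else (1 / (4 - c)) ^ (k - 1)

theorem result : ∃ c : ℝ, 0 < c ∧ c < 1 ∧ ∀ k : ℕ, 1 ≤ k → ∀ ε : ℝ, 0 < ε →
    ∃ z n₀ : ℕ, ∀ η : ℝ, 0 < η → ∃ x₀ : ℝ, ∀ x : ℝ, x₀ ≤ x → ∀ V : Finset ℕ,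
    (∀ v ∈ V, (v : ℝ) ≤ x) →
    (∀ p : ℕ, p ≤ z → p.Prime → ∃ r : ℕ, ∀ v ∈ V, ¬ v ≡ r [MOD p]) → n₀ ≤ V.card →
    (proportion c k - ε) * (V.card : ℝ) ^ k ≤
      ({a : Fin k → ℕ | Function.Injective a ∧ (∀ i, a i ∈ V) ∧
        x ^ (1 - η) ≤ ({n : ℕ | 1 ≤ n ∧ (n : ℝ) ≤ x ∧ ∀ i, (n + a i).Prime}.ncard : ℝ)}.ncard : ℝ) := by
  classical
  obtain ⟨c, hc0, hc1, h⟩ := Pool.Agent.Q47.UKT.uniform_shifts
  refine ⟨c, hc0, hc1, fun k hk ε hε => ?_⟩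
  obtain ⟨j, rfl⟩ : ∃ j, k = j + 1 := ⟨k - 1, by omega⟩
  obtain ⟨z, n₀, hz⟩ := h j ε hε
  refine ⟨z, n₀, fun η hη => ?_⟩
  obtain ⟨η', hη'⟩ : ∃ η' : ℝ, η' = min η 1 / 2 := ⟨_, rfl⟩
  have hη'0 : 0 < η' := by rw [hη']; positivity
  have hη'1 : 2 * η' ≤ η := by rw [hη']; linarith [min_le_left η 1]
  have hη'2 : 2 * η' ≤ 1 := by rw [hη']; linarith [min_le_right η 1]
  have h1 := hz η' hη'0
  have h2 : ∀ᶠ x : ℝ in atTop, 2 ≤ x ^ η' :=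
    (tendsto_rpow_atTop hη'0).eventually_ge_atTop 2
  obtain ⟨x₀, hx₀⟩ := eventually_atTop.1 (h1.and (h2.and (eventually_ge_atTop (1 : ℝ))))
  refine ⟨x₀, fun x hx V hVx hVadm hVn => ?_⟩
  obtain ⟨h3, h4, h5⟩ := hx₀ x hx
  have h6 : x ^ (1 - η) + 1 ≤ x ^ (1 - η') := by
    have e1 : x ^ (1 - η') = x ^ (1 - 2 * η') * x ^ η' := by
      rw [← Real.rpow_add (by linarith)]
      congr 1
      ring
    have e2 : (1 : ℝ) ≤ x ^ (1 - 2 * η') := Real.one_le_rpow h5 (by linarith)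
    have e3 : x ^ (1 - η) ≤ x ^ (1 - 2 * η') :=
      Real.rpow_le_rpow_of_exponent_le h5 (by linarith)
    rw [e1]
    nlinarith
  have hd : proportion c (j + 1) = Pool.Agent.Q47.UKT.dens c j := by
    unfold proportion Pool.Agent.Q47.UKT.dens
    by_cases hj : j = 1
    · subst hj; simp
    · rw [if_neg (by omega), if_neg hj, Nat.add_sub_cancel]
  rw [hd]
  refine (h3 V hVx hVadm hVn).trans ?_
  have hfin : ({a : Fin (j + 1) → ℕ | Function.Injective a ∧ (∀ i, a i ∈ V) ∧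
        x ^ (1 - η) ≤ ({n : ℕ | 1 ≤ n ∧ (n : ℝ) ≤ x ∧ ∀ i, (n + a i).Prime}.ncard : ℝ)}).Finite := by
    apply (Fintype.piFinset (fun _ : Fin (j + 1) => V)).finite_toSet.subset
    rintro a ⟨_, ha, _⟩
    rw [Finset.mem_coe, Fintype.mem_piFinset]
    exact ha
  refine Nat.cast_le.2 ?_
  rw [← Set.ncard_coe_finset]
  apply Set.ncard_le_ncard _ hfin
  intro a ha
  rw [Finset.mem_coe, Pool.Agent.Q47.UKT.Phi, Finset.mem_filter, Fintype.mem_piFinset] at ha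
  obtain ⟨ha1, ha2, ha3⟩ := ha
  refine ⟨ha2, ha1, ?_⟩
  rw [Pool.Agent.Q47.UKT.cntS_image] at ha3
  have h7 : {n : ℕ | (n : ℝ) ≤ x ∧ ∀ i, (n + a i).Prime}.ncard ≤
      {n : ℕ | 1 ≤ n ∧ (n : ℝ) ≤ x ∧ ∀ i, (n + a i).Prime}.ncard + 1 := by
    have hf2 : {n : ℕ | 1 ≤ n ∧ (n : ℝ) ≤ x ∧ ∀ i, (n + a i).Prime}.Finite := by
      apply (Set.finite_Iic ⌊x⌋₊).subset
      rintro n ⟨_, hn, _⟩
      exact Nat.le_floor hn
    refine (Set.ncard_le_ncard (t := insert 0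
      {n : ℕ | 1 ≤ n ∧ (n : ℝ) ≤ x ∧ ∀ i, (n + a i).Prime}) ?_ (hf2.insert 0)).trans
      (Set.ncard_insert_le _ _)
    rintro n ⟨hn1, hn2⟩
    rcases Nat.eq_zero_or_pos n with h0 | h0
    · exact Or.inl h0
    · exact Or.inr ⟨h0, hn1, hn2⟩
  have h8 : (({n : ℕ | (n : ℝ) ≤ x ∧ ∀ i, (n + a i).Prime}.ncard : ℕ) : ℝ) ≤
      (({n : ℕ | 1 ≤ n ∧ (n : ℝ) ≤ x ∧ ∀ i, (n + a i).Prime}.ncard : ℕ) : ℝ) + 1 := by
    exact_mod_cast h7
  linarith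

end Pool.Agent.Results.MP_f686a1_nt.PositiveProportion
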