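import Pool.Agent.Q25.UReg2

/-!
# Regular points of arbitrary sets of almost prime tuples, uniformly in the shifts

For every admissible set `T` of `k` shifts `≤ X ^ E` and EVERY set `A` of integers `m` for which no `m + h`, `h ∈ T`, has
a prime factor `≤ X ^ (1 / r)` (for instance the integers for which all `m + h` are prime), almost all elements of `A` in
every interval `(u, u + Y]`, `X ^ θ ≤ Y ≤ X`, `Y ≤ u`, are regular points of `A`, measured with the expected number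
`Y V(T)` of all such integers.
-/

set_option autoImplicit false

namespace Pool.Agent.Results.MP_f686a1_nt.RegularPoints

open Finset
open Pool.Agent.Q25.UReg (N RightOrder ConstantDensity badScales Irregular GoodT VT)

/-- **Regular points of arbitrary sets of almost prime tuples, uniformly in the shifts.** -/
theorem result (k : ℕ) (hk : 2 ≤ k) (E θ : ℝ) (hE : 0 < E) (hθ : 0 < θ) :
    ∃ r₀ : ℕ, 2 ≤ r₀ ∧ ∀ r : ℕ, r₀ ≤ r → ∀ ε : ℝ, 0 < ε → ∃ c : ℝ, 0 < c ∧ ∀ δ : ℝ, 0 < δ → ∃ B X₀ : ℕ,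
      ∀ X : ℕ, X₀ ≤ X → ∀ T : Finset ℕ, T.card = k → (∀ h ∈ T, (h : ℝ) ≤ (X : ℝ) ^ E) →
        (∀ p : ℕ, p.Prime → (T.image (fun h => h % p)).card < p) →
        ∀ u Y : ℕ, (X : ℝ) ^ θ ≤ Y → Y ≤ X → Y ≤ u → ∀ A : Set ℕ, (∀ m ∈ A, GoodT T r X m) →
          (N (Irregular A (VT T r X) c δ B Y) u (u + Y) : ℝ) ≤ ε * (Y * VT T r X) := by
  obtain ⟨r₀, hr₀, h⟩ := Pool.Agent.Q25.UReg.tuple_reg k hk E θ hE hθ
  refine ⟨r₀, hr₀, fun r hr ε hε => ?_⟩
  obtain ⟨c, hc, h1⟩ := h r hr ε hε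
  refine ⟨c, hc, fun δ hδ => ?_⟩
  obtain ⟨B, hB⟩ := h1 δ hδ
  obtain ⟨X₀, hX₀⟩ := Filter.eventually_atTop.1 hB
  exact ⟨B, X₀, fun X hX => hX₀ X hX⟩

end Pool.Agent.Results.MP_f686a1_nt.RegularPoints
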